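import Pool.Agent.Helper66_D2.Stmts
import Pool.Agent.Helper20_PP.Fun
import Pool.Agent.Helper75_PP.Conj

/-!
# Squad PP, part D2, module CEN: the centre of the algebra `F C b`
-/

open scoped BigOperators

noncomputable section

namespace Pool.Agent.PP.CD2.H31

open Pool.Agent.PP Pool.Agent.PP.H20 Pool.Agent.Helper51_AWC Pool.Agent.Helper79_WRA

variable {F : Type} [Field F] {G : Type} [Group G] [Finite G]

theorem comm_of {C : Subgroup G} {a c : G → F} (ha : SpF C a) (hc : CmF C c) :
    mulF a c = mulF c a := by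
  apply H75.mulF_comm_of (K := C) ha
  intro k hk
  funext x
  have h := hc k⁻¹ (inv_mem hk) x
  rw [inv_inv] at h
  exact h

theorem comm_ma {C : Subgroup G} {a c : G → F} (ha : SpF C a) (hc : CmF C c) :
    toMA a * toMA c = toMA c * toMA a := by
  rw [← toMA_mulF, ← toMA_mulF, comm_of ha hc]

theorem toMA_pwF (w : G → F) (s : ℕ) (a : G → F) :
    toMA (pwF w s a) = toMA w ^ s * toMA a := by
  induction s with
  | zero => rw [pow_zero, one_mul]; rfl
  | succ s ih =>
    have h : pwF w (s + 1) a = mulF w (pwF w s a) := Function.iterate_succ_apply' _ _ _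
    rw [h, toMA_mulF, ih, ← mul_assoc, pow_succ']

theorem toMA_sum {ι : Type} (s : Finset ι) (a : ι → G → F) :
    toMA (∑ t ∈ s, a t) = ∑ t ∈ s, toMA (a t) :=
  map_sum (maE (F := F) (H := G)) a s

/-- CEN -/
theorem cen : CenStmt := by
  intro F _ G _ _ C b w i q h c hsc hcc hbc
  obtain ⟨α, hα⟩ := h.loc c hsc
  refine ⟨α, ?_⟩
  obtain ⟨m, x, y, hxy, hsum⟩ := h.full
  have h1 : toMA c * toMA i = ∑ s ∈ Finset.range q, α s • (toMA w ^ s * toMA i) := by
    have h2 := congrArg toMA hα
    rw [toMA_mulF, toMA_mulF, toMA_sum] at h2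
    have h3 : toMA i * toMA i = toMA i := by rw [← toMA_mulF, h.ii]
    have h4 : toMA i * (toMA c * toMA i) = toMA c * toMA i := by
      rw [← mul_assoc, comm_ma h.si hcc, mul_assoc, h3]
    rw [← h4, h2]
    refine Finset.sum_congr rfl fun s _ => ?_
    rw [toMA_smul, toMA_pwF]
  have h5 : ∑ k, toMA (x k) * (toMA i * toMA (y k)) = toMA b := by
    rw [← hsum, toMA_sum]
    refine Finset.sum_congr rfl fun k _ => ?_
    rw [toMA_mulF, toMA_mulF]
  have h6 : ∀ (k : Fin m) (s : ℕ), toMA (x k) * toMA w ^ s = toMA w ^ s * toMA (x k) := by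
    intro k s
    have : Commute (toMA (x k)) (toMA w) := comm_ma (hxy k).1 h.cw
    exact (this.pow_right s).eq
  apply toMA_injective
  rw [toMA_sum]
  have h7 : toMA c = toMA c * toMA b := by
    rw [← comm_ma h.sb hcc, ← toMA_mulF, hbc]
  rw [h7, ← h5, Finset.mul_sum]
  have h8 : ∀ k : Fin m, toMA c * (toMA (x k) * (toMA i * toMA (y k))) =
      ∑ s ∈ Finset.range q, α s • (toMA w ^ s * (toMA (x k) * (toMA i * toMA (y k)))) := by
    intro k
    rw [← mul_assoc, ← comm_ma (hxy k).1 hcc, mul_assoc, ← mul_assoc (toMA c), h1,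
      Finset.sum_mul, Finset.mul_sum]
    refine Finset.sum_congr rfl fun s _ => ?_
    rw [smul_mul_assoc, mul_smul_comm, mul_assoc, ← mul_assoc (toMA (x k)), h6, mul_assoc]
  rw [Finset.sum_congr rfl fun k _ => h8 k, Finset.sum_comm]
  refine Finset.sum_congr rfl fun s _ => ?_
  rw [← Finset.smul_sum, ← Finset.mul_sum, h5, toMA_smul, toMA_pwF]

end Pool.Agent.PP.CD2.H31
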