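import Pool.Agent.Helper66_D2.Tool
import Pool.Agent.Helper74_PP.Loc
import Pool.Agent.Helper20_PP.Rst
import Pool.Agent.Helper75_PP.Conj

/-!
# Squad PP, part D2, module CL1: `K` is transitive on the blocks of `C` below `b₁`
-/

open scoped BigOperators

noncomputable section

namespace Pool.Agent.PP.CD2.H31

open Pool.Agent.PP Pool.Agent.PP.H20 Pool.Agent.Helper51_AWC Pool.Agent.Helper79_WRA
  Pool.Agent.PP.CD2.H66

variable {F : Type} [Field F] {G : Type} [Group G] [Finite G]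

theorem blc_cm {C : Subgroup G} {b₁ f : G → F} (h : BlC C b₁ f) : CmF C f := by
  intro c hc x
  by_cases hx : x ∈ C
  · exact h.blk.1.1 ⟨x, hx⟩ ⟨c, hc⟩
  · rw [h.supp x hx, h.supp]
    intro h'
    apply hx
    have h1 := C.mul_mem (C.mul_mem (inv_mem hc) h') hc
    have e : c⁻¹ * (c * x * c⁻¹) * c = x := by group
    rwa [e] at h1

theorem blc_ff {C : Subgroup G} {b₁ f : G → F} (h : BlC C b₁ f) : mulF f f = f := by
  apply H75.eq_of_res (N := C) (h.supp.mul h.supp) h.supp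
  rw [H75.mulF_res C f h.supp]
  exact h.blk.1.2

theorem blc_ne {C : Subgroup G} {b₁ f : G → F} (h : BlC C b₁ f) : f ≠ 0 := by
  intro h0
  apply h.blk.2.1
  rw [h0]
  rfl

/-- different blocks are orthogonal -/
theorem blc_orth {C : Subgroup G} {b₁ f f' : G → F} (h : BlC C b₁ f) (h' : BlC C b₁ f')
    (hne : f ≠ f') : mulF f f' = 0 := by
  have hc : mulF f f' = mulF f' f := cm_comm (blc_cm h) h'.supp
  have key : ∀ {g g' : G → F}, BlC C b₁ g → BlC C b₁ g' → mulF g g' = g ∨ mulF g g' = 0 := by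
    intro g g' hg hg'
    rcases hg.blk.2.2 _ hg'.blk.1 with h1 | h1
    · left
      apply H75.eq_of_res (N := C) (hg.supp.mul hg'.supp) hg.supp
      rw [H75.mulF_res C _ hg.supp]
      exact h1
    · right
      apply H75.eq_of_res (N := C) (hg.supp.mul hg'.supp) (fun _ _ => rfl)
      rw [H75.mulF_res C _ hg.supp]
      exact h1
  rcases key h h' with h1 | h1
  · rcases key h' h with h2 | h2
    · exact absurd (h1.symm.trans (hc.trans h2)) hne
    · rw [hc, h2]
  · exact h1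

/-- conjugation by an element which normalises `C` -/
def cE {C : Subgroup G} (k : G) (h : ∀ x, x ∈ C ↔ k⁻¹ * x * k ∈ C) : C ≃* C where
  toFun x := ⟨k⁻¹ * x * k, (h x).1 x.2⟩
  invFun x := ⟨k * x * k⁻¹, (h _).2 (by
    have e : k⁻¹ * (k * (x : G) * k⁻¹) * k = x := by group
    rw [e]
    exact x.2)⟩
  left_inv x := by
    apply Subtype.ext
    change k * (k⁻¹ * (x : G) * k) * k⁻¹ = x
    group
  right_inv x := by
    apply Subtype.ext
    change k⁻¹ * (k * (x : G) * k⁻¹) * k = x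
    group
  map_mul' x y := by
    apply Subtype.ext
    change k⁻¹ * ((x : G) * y) * k = k⁻¹ * (x : G) * k * (k⁻¹ * (y : G) * k)
    group

theorem blc_conj {C : Subgroup G} {b₁ f : G → F} (h : BlC C b₁ f) {k : G}
    (hk : ∀ x, x ∈ C ↔ k⁻¹ * x * k ∈ C) (hb : (fun g => b₁ (k⁻¹ * g * k)) = b₁) :
    BlC C b₁ (fun g => f (k⁻¹ * g * k)) where
  supp := fun x hx => h.supp _ fun hc => hx ((hk x).2 hc)
  blk := IsBlk_equiv (cE k hk) h.blk
  le := by
    have h1 := conj_mulF k b₁ f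
    rw [hb, h.le] at h1
    exact h1.symm

theorem bY_pwF {ℓ : ℕ} (hF : GoodF ℓ F) {y : G} (hy : IsPGroup ℓ (Subgroup.zpowers y))
    {d : G → F} (hd : CmF (Subgroup.zpowers y) d) (m : ℕ) :
    bY y (pwF d m d) = pwF (bY y d) m (bY y d) := by
  induction m with
  | zero => rfl
  | succ m ih => rw [pwF_succ, pwF_succ, bY_mulF hF hy hd (hd.pwF hd m), ih]

theorem mem_C_iff {N : Subgroup G} (hN : N.Normal) {y k : G} (hk : k ∈ NY y) (x : G) :
    x ∈ N ⊓ CY y ↔ k⁻¹ * x * k ∈ N ⊓ CY y := by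
  have key : ∀ k : G, k ∈ NY y → ∀ x, x ∈ N ⊓ CY y → k⁻¹ * x * k ∈ N ⊓ CY y := by
    intro k hk x hx
    refine ⟨?_, ?_⟩
    · have := hN.conj_mem x hx.1 k⁻¹
      rwa [inv_inv] at this
    · refine Subgroup.mem_centralizer_iff.2 fun z hz => ?_
      have h1 : k * z * k⁻¹ ∈ Subgroup.zpowers y := (Subgroup.mem_normalizer_iff.1 hk z).1 hz
      have h2 := Subgroup.mem_centralizer_iff.1 hx.2 _ h1
      calc z * (k⁻¹ * x * k) = k⁻¹ * ((k * z * k⁻¹) * x) * k := by group
        _ = k⁻¹ * (x * (k * z * k⁻¹)) * k := by rw [h2]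
        _ = k⁻¹ * x * k * z := by group
  constructor
  · exact key k hk x
  · intro h
    have h1 := key k⁻¹ (inv_mem hk) _ h
    have e : k⁻¹⁻¹ * (k⁻¹ * x * k) * k⁻¹ = x := by group
    rwa [e] at h1

/-- CL1 -/
theorem cl1 (brs : BrsStmt) : Cl1Stmt := by
  classical
  intro ℓ _ F _ hF G _ _ n N P y₁ b hS e' e'' h' h''
  by_contra hcon
  push Not at hcon
  have hfin := Fintype.ofFinite (N ⊓ NY y₁ : Subgroup G)
  have hNn : N.Normal := hS.normal
  have hyN : Subgroup.zpowers y₁ ≤ N := by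
    rw [Subgroup.zpowers_le]
    exact hS.le hS.mem
  have hyp : IsPGroup ℓ (Subgroup.zpowers y₁) :=
    IsPGroup.of_card (n := 1) (by rw [Nat.card_zpowers, hS.ord, pow_one])
  have hb1 : CmF (N ⊓ NY y₁) (bY y₁ b) := bY_cm (cmF_of_cl hS.idem.1 N)
  -- the conjugates
  let cf : (N ⊓ NY y₁ : Subgroup G) → (G → F) := fun k => fun g => e' ((k : G)⁻¹ * g * k)
  have hblk : ∀ k, BlC (N ⊓ CY y₁) (bY y₁ b) (cf k) := by
    intro k
    apply blc_conj h' (mem_C_iff hNn k.2.2)
    funext g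
    have h1 := hb1 (k : G)⁻¹ (inv_mem k.2) g
    rw [inv_inv] at h1
    exact h1
  let S : Finset (G → F) := Finset.univ.image cf
  have hS1 : ∀ f ∈ S, BlC (N ⊓ CY y₁) (bY y₁ b) f := by
    intro f hf
    obtain ⟨k, _, rfl⟩ := Finset.mem_image.1 hf
    exact hblk k
  have hS2 : e' ∈ S := by
    refine Finset.mem_image.2 ⟨1, Finset.mem_univ _, ?_⟩
    funext g
    change e' (((1 : (N ⊓ NY y₁ : Subgroup G)) : G)⁻¹ * g * ((1 : (N ⊓ NY y₁ : Subgroup G)) : G)) = _
    rw [Subgroup.coe_one, inv_one, one_mul, mul_one]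
  have hS3 : e'' ∉ S := by
    intro hf
    obtain ⟨k, _, hk⟩ := Finset.mem_image.1 hf
    exact hcon k k.2 hk.symm
  have sum_l : ∀ g : G → F, mulF (∑ f ∈ S, f) g = ∑ f ∈ S, mulF f g := by
    intro g
    apply toMA_injective
    rw [toMA_mulF, toMA_sum', toMA_sum', Finset.sum_mul]
    exact Finset.sum_congr rfl fun t _ => (toMA_mulF _ _).symm
  have hae' : mulF (∑ f ∈ S, f) e' = e' := by
    rw [sum_l, Finset.sum_eq_single_of_mem e' hS2]
    · exact blc_ff h'
    · intro f hf hne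
      exact blc_orth (hS1 f hf) h' hne
  have hae'' : mulF (∑ f ∈ S, f) e'' = 0 := by
    rw [sum_l]
    refine Finset.sum_eq_zero fun f hf => ?_
    apply blc_orth (hS1 f hf) h''
    rintro rfl
    exact hS3 hf
  have haC : SpF (N ⊓ CY y₁) (∑ f ∈ S, f) := SpF.sum fun f hf => (hS1 f hf).supp
  have hak : CmF (N ⊓ NY y₁) (∑ f ∈ S, f) := by
    intro k hk x
    rw [Finset.sum_apply, Finset.sum_apply]
    refine Finset.sum_bij (fun f _ => fun g => f (k * g * k⁻¹)) ?_ ?_ ?_ ?_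
    · intro f hf
      obtain ⟨t, _, rfl⟩ := Finset.mem_image.1 hf
      refine Finset.mem_image.2 ⟨⟨k, hk⟩⁻¹ * t, Finset.mem_univ _, ?_⟩
      funext g
      change e' ((k⁻¹ * (t : G))⁻¹ * g * (k⁻¹ * (t : G))) = e' ((t : G)⁻¹ * (k * g * k⁻¹) * t)
      congr 1
      group
    · intro f _ f' _ he
      funext g
      have h1 := congrFun he (k⁻¹ * g * k)
      have e : k * (k⁻¹ * g * k) * k⁻¹ = g := by group
      simp only [e] at h1
      exact h1
    · intro f hf
      obtain ⟨t, _, rfl⟩ := Finset.mem_image.1 hf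
      refine ⟨cf (⟨k, hk⟩ * t), Finset.mem_image.2 ⟨_, Finset.mem_univ _, rfl⟩, ?_⟩
      funext g
      change e' ((k * (t : G))⁻¹ * (k * g * k⁻¹) * (k * (t : G))) = e' ((t : G)⁻¹ * g * t)
      congr 1
      group
    · intro f _
      rfl
  have hba : mulF (bY y₁ b) (∑ f ∈ S, f) = ∑ f ∈ S, f := by
    apply toMA_injective
    rw [toMA_mulF, toMA_sum', Finset.mul_sum]
    refine Finset.sum_congr rfl fun f hf => ?_
    rw [← toMA_mulF, (hS1 f hf).le]
  obtain ⟨z, hz1, hz2, hz3, hz4⟩ := brs ℓ F hF G n N P y₁ hS.le hS.cyc hS.card hS.mem hS.ord b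
    hS.supp (cmF_of_cl hS.idem.1 N) hS.idem.2 hS.prj1 _ haC hak hba
  have hce : CE b N 1 z := ⟨fun h hh => hz1 h (by simpa using hh), hz2, hz3⟩
  obtain ⟨c, m, hm⟩ := J74.res_exists hF.closed ⟨hS.supp, hS.idem.1, hS.blk⟩ hce
  have hcm : CmF (Subgroup.zpowers y₁) (z - c • b) :=
    CmF.mono hyN (hz2.sub ((cmF_of_cl hS.idem.1 N).smul c))
  have h1 : pwF (bY y₁ (z - c • b)) m (bY y₁ (z - c • b)) = 0 := by
    rw [← bY_pwF hF hyp hcm, show pwF (z - c • b) m (z - c • b) = 0 from hm]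
    funext x
    unfold bY br
    split_ifs <;> rfl
  have h2 : bY y₁ (z - c • b) = (∑ f ∈ S, f) - c • bY y₁ b := by
    rw [← hz4]
    funext x
    simp only [bY, br, Pi.sub_apply, Pi.smul_apply]
    split_ifs
    · rfl
    · simp
  rw [h2] at h1
  -- in the group algebra
  set D := toMA ((∑ f ∈ S, f) - c • bY y₁ b) with hD
  have h3 : D ^ (m + 1) = 0 := by
    have := congrArg toMA h1
    rw [toMA_pwF, toMA_zero, ← pow_succ] at this
    exact this
  have h4 : D * toMA e'' = (-c) • toMA e'' := by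
    rw [hD, toMA_sub, toMA_smul, sub_mul, smul_mul_assoc, ← toMA_mulF, ← toMA_mulF, hae'', h''.le,
      toMA_zero, zero_sub, neg_smul]
  have h5 : ∀ k : ℕ, D ^ k * toMA e'' = (-c) ^ k • toMA e'' := by
    intro k
    induction k with
    | zero => rw [pow_zero, pow_zero, one_mul, one_smul]
    | succ k ih =>
      rw [pow_succ, mul_assoc, h4, mul_smul_comm, ih, smul_smul, pow_succ']
  have h6 := h5 (m + 1)
  rw [h3, zero_mul] at h6
  have h7 : c = 0 := by
    rcases smul_eq_zero.1 h6.symm with h8 | h8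
    · exact neg_eq_zero.1 (pow_eq_zero_iff (Nat.succ_ne_zero m) |>.1 h8)
    · exact absurd (toMA_injective (h8.trans toMA_zero.symm)) (blc_ne h'')
  have h8 : D * toMA e' = toMA e' := by
    rw [hD, h7, zero_smul, sub_zero, ← toMA_mulF, hae']
  have h9 : ∀ k : ℕ, D ^ k * toMA e' = toMA e' := by
    intro k
    induction k with
    | zero => rw [pow_zero, one_mul]
    | succ k ih => rw [pow_succ, mul_assoc, h8, ih]
  have h10 := h9 (m + 1)
  rw [h3, zero_mul] at h10
  exact blc_ne h' (toMA_injective (h10.symm.trans toMA_zero.symm))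

end Pool.Agent.PP.CD2.H31
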