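import Pool.Agent.Helper66_D2.Tool

/-!
# Squad PP, part D2, module FEX: the endomorphism
-/

open scoped BigOperators

noncomputable section

namespace Pool.Agent.PP.CD2.H31

open Pool.Agent.PP Pool.Agent.PP.H20 Pool.Agent.Helper51_AWC Pool.Agent.Helper79_WRA

section lin

variable {F : Type} [Field F] {V : Type} [AddCommGroup V] [Module F V]

/-- a partial inverse of a linear map on its range -/
theorem ex_tau (g : V →ₗ[F] V) : ∃ τ : V →ₗ[F] V, ∀ t ∈ LinearMap.range g, g (τ t) = t := by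
  obtain ⟨h, hh⟩ := LinearMap.exists_rightInverse_of_surjective g.rangeRestrict
    g.range_rangeRestrict
  obtain ⟨τ, hτ⟩ := LinearMap.exists_extend h
  refine ⟨τ, fun t ht => ?_⟩
  have h1 : τ t = h ⟨t, ht⟩ := LinearMap.congr_fun hτ ⟨t, ht⟩
  have h2 := congrArg Subtype.val (LinearMap.congr_fun hh ⟨t, ht⟩)
  rw [h1]
  exact h2

/-- a projection onto `T` which kills `R` -/
theorem ex_phi (T R : Submodule F V) (h : T ⊓ R = ⊥) : ∃ φ : V →ₗ[F] V,
    (∀ t ∈ T, φ t = t) ∧ (∀ r ∈ R, φ r = 0) ∧ ∀ v, φ v ∈ T := by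
  obtain ⟨R', hR, hc⟩ := Disjoint.exists_isCompl (a := R) (b := T)
    (disjoint_iff.2 (by rw [inf_comm]; exact h))
  refine ⟨T.projection R' hc.symm, fun t ht => ?_, fun r hr => ?_, fun v => ?_⟩
  · exact Submodule.projection_apply_left hc.symm ⟨t, ht⟩
  · exact Submodule.projection_apply_right hc.symm ⟨r, hR hr⟩
  · exact Submodule.projection_apply_mem hc.symm v

/-- the twisted sum `∑ W ^ i a W ^ (j - 1 - i)` -/
def tws (W a : V →ₗ[F] V) : ℕ → (V →ₗ[F] V)
  | 0 => 0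
  | j + 1 => W * tws W a j + a * W ^ j

theorem tws_comm (W a : V →ₗ[F] V) (j : ℕ) :
    tws W a j * W - W * tws W a j = a * W ^ j - W ^ j * a := by
  induction j with
  | zero => simp [tws]
  | succ j ih =>
    have h : tws W a (j + 1) * W - W * tws W a (j + 1) =
        W * (tws W a j * W - W * tws W a j) + (a * W ^ j * W - W * (a * W ^ j)) := by
      rw [tws, add_mul, mul_add, mul_sub]
      simp only [mul_assoc]
      abel
    have e1 : a * W ^ (j + 1) = a * W ^ j * W := by rw [pow_succ, mul_assoc]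
    have e2 : W ^ (j + 1) * a = W * (W ^ j * a) := by rw [pow_succ', mul_assoc]
    rw [h, ih, mul_sub, e1, e2]
    abel

theorem tws_fix (W a : V →ₗ[F] V) (j : ℕ) {v : V} (hv : W v = 0) :
    tws W a (j + 1) v = (W ^ j) (a v) := by
  induction j with
  | zero => simp [tws]
  | succ j ih =>
    have h : tws W a (j + 1 + 1) v = W (tws W a (j + 1) v) + a ((W ^ (j + 1)) v) := rfl
    have h2 : (W ^ (j + 1)) v = 0 := by rw [pow_succ, Module.End.mul_apply, hv, map_zero]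
    rw [h, ih, h2, map_zero, add_zero, pow_succ', Module.End.mul_apply]

end lin

/-- FEX -/
theorem fex (spa : SpaStmt) (cpl : CplStmt) (tra : TraStmt) (stw : StwStmt) : FexStmt := by
  classical
  intro ℓ _ F _ hF G _ _ n N P y₁ b w hD V _ _ _ ρ hb Y hlt hYf hYs
  obtain ⟨s1, s2, s3, s4, s5, s6, s7, s8, s9, s10, s11⟩ := stw ℓ F hF G n N P y₁ b w hD V ρ
  set B := evV ρ (bY y₁ b) with hB
  set W := evV ρ w with hW
  set K := N ⊓ NY y₁ with hK
  have hKL : ∀ k ∈ K, k ∈ NY y₁ := fun k hk => hk.2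
  have hq : 2 ≤ ℓ ^ (n + 1) := by
    have h1 : 2 ≤ ℓ := (Fact.out : ℓ.Prime).two_le
    calc 2 ≤ ℓ := h1
      _ = ℓ ^ 1 := (pow_one ℓ).symm
      _ ≤ ℓ ^ (n + 1) := Nat.pow_le_pow_right (by omega) (by omega)
  obtain ⟨q, hq'⟩ : ∃ q, ℓ ^ (n + 1) = q + 2 := ⟨ℓ ^ (n + 1) - 2, by omega⟩
  rw [hq'] at s6 s8 hlt
  have hq1 : q + 2 - 1 = q + 1 := by omega
  rw [hq1] at s8 hlt
  -- the number `r`
  have hex : ∃ r, Y ⊓ rngW ρ w r ≤ rngW ρ w (q + 1) := ⟨q + 1, inf_le_right⟩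
  have hr1 := Nat.find_spec hex
  have hr2 : Nat.find hex ≤ q + 1 := Nat.find_min' hex inf_le_right
  have hr0 : Nat.find hex ≠ 0 := by
    intro h0
    rw [h0] at hr1
    have h1 : rngW ρ w 0 = ⊤ := by
      rw [rngW, pow_zero]
      exact LinearMap.range_id
    rw [h1, inf_top_eq] at hr1
    exact absurd hr1 (not_le_of_gt hlt)
  obtain ⟨r, hr⟩ := Nat.exists_eq_succ_of_ne_zero hr0
  rw [Nat.succ_eq_add_one] at hr
  have hr3 : ¬ Y ⊓ rngW ρ w r ≤ rngW ρ w (q + 1) := Nat.find_min hex (by omega)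
  rw [hr] at hr1 hr2
  have hmono : ∀ i j, i ≤ j → rngW ρ w j ≤ rngW ρ w i := by
    rintro i j hij _ ⟨v, rfl⟩
    obtain ⟨c, rfl⟩ := Nat.exists_eq_add_of_le hij
    exact ⟨(W ^ c) v, by rw [pow_add, Module.End.mul_apply]⟩
  -- the complement `T`
  obtain ⟨T, hT1, hT2, hT3⟩ := cpl ℓ F hF G n N P y₁ b w hD V ρ (rngW ρ w (q + 1))
    (Y ⊓ rngW ρ w r) (le_inf hlt.le (hmono r (q + 1) (by omega))) (inf_le_left.trans hYf)
    (fun k hk v hv => s9 (q + 1) k (hKL k hk) v hv)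
    (fun k hk v hv => ⟨hYs k hk v hv.1, s9 r k (hKL k hk) v hv.2⟩)
  have hTY : T ≤ Y ⊓ rngW ρ w r := hT3 ▸ le_sup_left
  have hTf : ∀ t ∈ T, B t = t ∧ W t = 0 := fun t ht => hYf (hTY ht).1
  have hTR : T ⊓ rngW ρ w (r + 1) = ⊥ := by
    rw [eq_bot_iff, ← hT2]
    exact le_inf inf_le_left ((inf_le_inf_right _ (hTY.trans inf_le_left)).trans hr1)
  obtain ⟨φ, hφ1, hφ2, hφ3⟩ := ex_phi T _ hTR
  obtain ⟨τ, hτ⟩ := ex_tau (W ^ r)
  have hτT : ∀ v, (W ^ r) (τ (φ v)) = φ v := fun v => hτ _ (hTY (hφ3 v)).2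
  set g₀ := tws W (τ * φ) (r + 1) with hg₀
  have hcomm : ∀ v, g₀ (W v) = W (g₀ v) := by
    intro v
    have h1 := LinearMap.congr_fun (tws_comm W (τ * φ) (r + 1)) v
    have h2 : (τ * φ * W ^ (r + 1)) v = 0 := by
      rw [Module.End.mul_apply, Module.End.mul_apply, hφ2 _ ⟨v, rfl⟩, map_zero]
    have h3 : (W ^ (r + 1) * (τ * φ)) v = 0 := by
      rw [Module.End.mul_apply, Module.End.mul_apply, pow_succ', Module.End.mul_apply, hτT]
      exact (hTf _ (hφ3 v)).2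
    rw [LinearMap.sub_apply, LinearMap.sub_apply, h2, h3, sub_zero, Module.End.mul_apply,
      Module.End.mul_apply, sub_eq_zero] at h1
    exact h1
  have hfix : ∀ v, W v = 0 → g₀ v = φ v := by
    intro v hv
    rw [hg₀, tws_fix W (τ * φ) r hv, Module.End.mul_apply, hτT]
  -- averaging
  set T₀ := LinearMap.range B with hT₀
  have hT₀B : ∀ v ∈ T₀, B v = v := by
    rintro _ ⟨v, rfl⟩
    exact s2 v
  have hfT₀ : ∀ v, B v = v → v ∈ T₀ := fun v hv => ⟨v, hv⟩
  obtain ⟨g', hg1, hg2⟩ := spa ℓ F hF G n N P y₁ b w hD V V ρ ρ T₀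
    (by
      rintro k hk _ ⟨v, rfl⟩
      exact ⟨ρ k v, s1 k (hKL k hk) v⟩)
    hT₀B g₀ (fun v _ => hcomm v)
  have hKs : Stb K ρ (fixW ρ (bY y₁ b) w) := fun k hk v hv => s10 k (hKL k hk) v hv
  have hA : ∀ v ∈ fixW ρ (bY y₁ b) w, g' v ∈ T := by
    intro v hv
    have h1 := hg2 (fixW ρ (bY y₁ b) w) (fun v hv => hfT₀ v hv.1) hKs T hT1 0
      (fun k _ v _ => by rw [LinearMap.zero_apply, LinearMap.zero_apply, map_zero])
      (fun v hv => by rw [LinearMap.zero_apply, sub_zero, hfix v hv.2]; exact hφ3 v) v hv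
    rwa [LinearMap.zero_apply, sub_zero] at h1
  have hI : ∀ t ∈ T, g' t = t := by
    intro t ht
    have h1 := hg2 T (fun v hv => hfT₀ v (hTf v hv).1) hT1 ⊥
      (fun k _ v hv => by
        rw [(Submodule.mem_bot F).1 hv, map_zero]
        exact zero_mem _) LinearMap.id
      (fun k _ v _ => rfl)
      (fun v hv => by
        rw [LinearMap.id_apply, hfix v (hTf v hv).2, hφ1 v hv, sub_self]
        exact zero_mem _) t ht
    rw [LinearMap.id_apply, Submodule.mem_bot, sub_eq_zero] at h1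
    exact h1
  obtain ⟨f, hf1, hf2⟩ := tra ℓ F hF G n N P y₁ b w hD V V ρ ρ (g' ∘ₗ B)
    (by
      intro k hk v
      rw [LinearMap.comp_apply, LinearMap.comp_apply, s1 k (hKL k hk) v]
      exact hg1 k hk _ ⟨v, rfl⟩)
    (by
      intro v
      rw [LinearMap.comp_apply, LinearMap.comp_apply]
      exact congrArg g' (s2 v))
  have hf3 : ∀ v ∈ fixW ρ (bY y₁ b) w, f v - g' v ∈ rngW ρ w (q + 1) := by
    intro v hv
    have h1 := hf2 1 (by omega) v hv.1 (by rw [pow_one]; exact hv.2)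
    rw [LinearMap.comp_apply, hq', hq1, show B v = v from hv.1] at h1
    exact h1
  refine ⟨f, hf1, ?_, ?_⟩
  · rintro rfl
    apply hr3
    rw [← hT3]
    refine sup_le ?_ le_rfl
    intro t ht
    have h1 := hf3 t (hTf t ht)
    rw [LinearMap.zero_apply, hI t ht, zero_sub, neg_mem_iff] at h1
    exact h1
  · intro v hv
    have h1 := hf3 v hv
    have h2 := add_mem (hTY (hA v hv)).1 (hlt.le h1)
    rwa [add_sub_cancel] at h2

end Pool.Agent.PP.CD2.H31
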